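import Pool.Agent.H653.Fin

/-!
Over `RCA₀ + B Σ⁰₂` the principle `2-RAN` does not imply `coRT²₂(p)` for the separable permutation
`p = 1203`.

Idea of the model. In the coordinate `m` of an ultrapower of the standard structures we build a
colouring in `m` nested levels, and the model is the cut that is given by the standard levels. The
set `D y` of the predecessors of `y` with colour `0` is always the union of at most `m` blocks such
that the pairs in one block have colour `1` and the pairs in different blocks have colour `0`; so the
colouring avoids `1203` and there is no set of `m + 2` elements that is homogeneous for colour `0`. On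
each level `l` a set `T l` is chosen, all later points get colour `0` with all points of `T l`, and
`T l` meets, with large probability, each set that has a small index relative to the colouring and the
random bits and that has a late element. The random bits are the columns of a finite string; they give
the sets which are 2-random in the model.
-/

set_option autoImplicit false

namespace Pool.Agent.Results.MP_26a456_lc.Pattern1203

open Pool.Agent.H40.Bsig Pool.Agent.H653.RanDefs

/-- The permutation `1203` is separable and some model of `RCA₀ + B Σ⁰₂ + 2-RAN` does not satisfy
`coRT²₂(1203)`. -/
theorem result : Separable [1, 2, 0, 3] ∧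
    ∃ M : Mod, RCA0 M ∧ Bnd M 2 ∧ TwoRan M ∧ ¬ CoRT M [1, 2, 0, 3] :=
  ⟨Pool.Agent.H653.sep1203, Pool.Agent.H653.ex_Cr.elim fun q =>
    ⟨q.cd.M, Pool.Agent.H653.Co.rca, Pool.Agent.H653.Co.bnd, Pool.Agent.H653.Cr.twoRan,
      Pool.Agent.H653.Cf.not_coRT⟩⟩

end Pool.Agent.Results.MP_26a456_lc.Pattern1203
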